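import Pool.Agent.H370.Adm

/-!
# MP_6ebba1_al, Q1: all admissible maps of a tridiagonal pair

`A`, `B` (the map called `A*` in the problem) is a tridiagonal pair with eigenspaces
`V_i` (of `A` for `a i`) and `V*_i` (of `B` for `b i`), `0 ≤ i ≤ d`, in standard orders.
A linear map `S` is admissible if `S V_i = V_i` and
`S (V*_0 + ⋯ + V*_i) = V*_d + ⋯ + V*_{d-i}` for `0 ≤ i ≤ d` (`Adm.Admissible`).

For `0 ≤ j ≤ d/2` put
`L_j  = (V*_0 + ⋯ + V*_j) ∩ (V_j + ⋯ + V_{d-j})` (`Low A B d a b j`) and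
`L'_j = (V*_d + ⋯ + V*_{d-j}) ∩ (V_j + ⋯ + V_{d-j})` (`Low` for the reversed order of the `V*_i`),
and `τ_{j,s} = (A - a_j) (A - a_{j+1}) ⋯ (A - a_{j+s-1})` (`tau A a j s`).
-/

set_option autoImplicit false

open Module Pool.Agent.R841.TD Pool.Agent.H370.Adm
open Pool.Agent.Helper9.TD (TDOrdering)

namespace Pool.Agent.Results.MP_6ebba1_al.AdmissibleMaps

/-- Let `A, B` be a tridiagonal pair with eigenspaces in standard orders.

1. (`StringDecomp`) Every `v` is uniquely a sum of vectors `τ_{j,s} q_{j,s}` with `2 j + s ≤ d` and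
   `q_{j,s} ∈ L_j`.
2. (`DimEigenspaces`) `dim V_i = ∑_{j ≤ min(i, d-i)} dim L_j`, and `dim L_j = dim L'_j`.
3. The admissible maps `S` correspond bijectively to the families `(σ_j)` of linear isomorphisms
   `σ_j : L_j ≃ L'_j`; the family of `S` is characterised by (`GivenBy`)
   `S τ_{j,s} q = τ_{j,s} σ_j q` for `2 j + s ≤ d` and `q ∈ L_j`, which, by 1, is an explicit
   formula for `S`. (For `2 j > d` both spaces `L_j` and `L'_j` are `0`.) -/
theorem result {K : Type*} [Field K] {V : Type*} [AddCommGroup V] [Module K V]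
    [FiniteDimensional K V] {A B : Module.End K V} {d : ℕ} {a b : ℕ → K}
    (hA : TDOrdering A B d a) (hB : TDOrdering B A d b) (irred : Irred A B) :
    StringDecomp A B d a b ∧ DimEigenspaces A B d a b ∧
    (∀ j, finrank K (Low A B d a b j) = finrank K (Low A B d a (fun i => b (d - i)) j)) ∧
    ∃ e : {S : Module.End K V // Admissible A B d a b S} ≃
        (∀ j, Low A B d a b j ≃ₗ[K] Low A B d a (fun i => b (d - i)) j),
      ∀ S, GivenBy A d a (e S) S.1 :=
  main_adm hA hB irred

end Pool.Agent.Results.MP_6ebba1_al.AdmissibleMaps
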